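import Mathlib
import Pool.Agent.H813R3.Abc.B
import Pool.Agent.H951R3.V.V5

/-!
# The solutions of AX + BY = CZ in products of small spread are sparse
-/

set_option autoImplicit false

namespace Pool.Agent.Results.MP_4ffbf9_nt.SparseSolutions

open Pool.Agent.H813R3.Voj

/-- `W` is the product of `n` positive integers with minimum `b` and maximum `b + s`, i.e. a
product of degree `n`, base `b` and spread `s`. -/
def Rep (W n b s : ℕ) : Prop :=
  0 < b ∧ ∃ x : Fin n → ℕ, (∀ i, b ≤ x i ∧ x i ≤ b + s) ∧ (∃ i, x i = b) ∧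
    (∃ i, x i = b + s) ∧ ∏ i, x i = W

/-- The triples of Q1 (without the condition on the gcd) with all entries at most `H`. -/
def solutions (A B C : ℕ) (F M H : ℝ) : Set (ℕ × ℕ × ℕ) :=
  {t | A * t.1 + B * t.2.1 = C * t.2.2 ∧ (t.1 : ℝ) ≤ H ∧ (t.2.1 : ℝ) ≤ H ∧ (t.2.2 : ℝ) ≤ H ∧
    ∃ nX nY nZ bX bY bZ sX sY sZ : ℕ,
      Rep t.1 nX bX sX ∧ Rep t.2.1 nY bY sY ∧ Rep t.2.2 nZ bZ sZ ∧
      (sX : ℝ) ^ 2 ≤ M * bX ∧ (sY : ℝ) ^ 2 ≤ M * bY ∧ (sZ : ℝ) ^ 2 ≤ M * bZ ∧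
      ((sX : ℝ) + 1) / nX + ((sY : ℝ) + 1) / nY + ((sZ : ℝ) + 1) / nZ ≤ F}

lemma rho_le_of_rep (W n b s : ℕ) (M : ℝ) (h : Rep W n b s) (hM : (s : ℝ) ^ 2 ≤ M * b) :
    0 < W ∧ 0 < n ∧
    (rho ∅ (W : ℤ) : ℝ) ≤ Real.exp (2 * M) * (W : ℝ) ^ (((s : ℝ) + 1) / n) := by
  obtain ⟨hb, x, hx, ⟨i0, -⟩, -, rfl⟩ := h
  have hn : 0 < n := lt_of_le_of_lt (Nat.zero_le _) i0.2
  have hxp : ∀ i, 0 < x i := fun i => lt_of_lt_of_le hb (hx i).1
  have hW : 0 < ∏ i, x i := Finset.prod_pos fun i _ => hxp i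
  refine ⟨hW, hn, ?_⟩
  have hb' : (0 : ℝ) < b := by exact_mod_cast hb
  have hn' : (0 : ℝ) < n := by exact_mod_cast hn
  -- the radical
  set V : ℕ := ∏ v ∈ Finset.Icc b (b + s), v with hV
  have hV0 : 0 < V := Finset.prod_pos fun v hv => lt_of_lt_of_le hb (Finset.mem_Icc.1 hv).1
  have h1 : rho ∅ ((∏ i, x i : ℕ) : ℤ) ≤ V := by
    unfold rho
    rw [Finset.sdiff_empty, Int.natAbs_natCast]
    have hsub : (∏ i, x i).primeFactors ⊆ V.primeFactors := by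
      intro p hp
      rw [Nat.mem_primeFactors] at hp ⊢
      obtain ⟨i, -, hi⟩ := (hp.1.prime.dvd_finsetProd_iff _).1 hp.2.1
      refine ⟨hp.1, hi.trans (Finset.dvd_prod_of_mem (fun v => v) ?_), hV0.ne'⟩
      exact Finset.mem_Icc.2 (hx i)
    calc ∏ p ∈ (∏ i, x i).primeFactors, p ≤ ∏ p ∈ V.primeFactors, p :=
          Finset.prod_le_prod_of_subset_of_one_le' hsub fun p hp _ =>
            (Nat.prime_of_mem_primeFactors hp).one_lt.le
      _ ≤ V := Nat.le_of_dvd hV0 (Nat.prod_primeFactors_dvd V)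
  have h2 : V ≤ (b + s) ^ (s + 1) := by
    calc V ≤ ∏ _v ∈ Finset.Icc b (b + s), (b + s) :=
          Finset.prod_le_prod' fun v hv => (Finset.mem_Icc.1 hv).2
      _ = (b + s) ^ (s + 1) := by
          rw [Finset.prod_const, Nat.card_Icc]
          congr 1
          omega
  have h3 : (rho ∅ ((∏ i, x i : ℕ) : ℤ) : ℝ) ≤ ((b : ℝ) + s) ^ (s + 1) := by
    exact_mod_cast h1.trans h2
  have h4 : ((b : ℝ) + s) ^ (s + 1) ≤ Real.exp (2 * M) * (b : ℝ) ^ (s + 1) := by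
    have h5 : (b : ℝ) + s = (1 + s / b) * b := by field_simp
    rw [h5, mul_pow]
    refine mul_le_mul_of_nonneg_right ?_ (by positivity)
    have h6 : (1 + (s : ℝ) / b) ≤ Real.exp (s / b) := by
      rw [add_comm]; exact Real.add_one_le_exp _
    calc (1 + (s : ℝ) / b) ^ (s + 1) ≤ (Real.exp (s / b)) ^ (s + 1) :=
          pow_le_pow_left₀ (by positivity) h6 _
      _ = Real.exp (((s + 1 : ℕ) : ℝ) * (s / b)) := by rw [Real.exp_nat_mul]
      _ ≤ Real.exp (2 * M) := by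
          refine Real.exp_le_exp.2 ?_
          have h7 : (s : ℝ) * (s + 1) ≤ 2 * (s : ℝ) ^ 2 := by
            rcases Nat.eq_zero_or_pos s with h0 | h0
            · rw [h0]; norm_num
            · have : (1 : ℝ) ≤ s := by exact_mod_cast h0
              nlinarith
          push_cast
          rw [← mul_div_assoc, div_le_iff₀ hb']
          nlinarith
  have h8 : (b : ℝ) ^ n ≤ ((∏ i, x i : ℕ) : ℝ) := by
    have : b ^ n ≤ ∏ i, x i := by
      calc b ^ n = ∏ _i : Fin n, b := by rw [Finset.prod_const, Finset.card_univ, Fintype.card_fin]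
        _ ≤ ∏ i, x i := Finset.prod_le_prod' fun i _ => (hx i).1
    exact_mod_cast this
  have h9 : (b : ℝ) ^ (s + 1) = ((b : ℝ) ^ n) ^ (((s : ℝ) + 1) / n) := by
    rw [← Real.rpow_natCast (b : ℝ) n, ← Real.rpow_mul hb'.le, ← Real.rpow_natCast]
    congr 1
    push_cast
    field_simp
  refine h3.trans (h4.trans (mul_le_mul_of_nonneg_left ?_ (Real.exp_pos _).le))
  rw [h9]
  exact Real.rpow_le_rpow (by positivity) h8 (by positivity)

lemma rho_mul_le (A W : ℕ) (hA : 0 < A) (hW : 0 < W) :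
    (rho ∅ ((A * W : ℕ) : ℤ) : ℝ) ≤ A * (rho ∅ (W : ℤ) : ℝ) := by
  have h : rho ∅ ((A * W : ℕ) : ℤ) ≤ A * rho ∅ (W : ℤ) := by
    unfold rho
    rw [Finset.sdiff_empty, Finset.sdiff_empty, Int.natAbs_natCast, Int.natAbs_natCast,
      Nat.primeFactors_mul hA.ne' hW.ne']
    calc ∏ p ∈ A.primeFactors ∪ W.primeFactors, p
        ≤ (∏ p ∈ A.primeFactors ∪ W.primeFactors, p) *
            ∏ p ∈ A.primeFactors ∩ W.primeFactors, p :=
          Nat.le_mul_of_pos_right _ (Finset.prod_pos fun p hp =>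
            (Nat.prime_of_mem_primeFactors (Finset.mem_inter.1 hp).1).pos)
      _ = (∏ p ∈ A.primeFactors, p) * ∏ p ∈ W.primeFactors, p := Finset.prod_union_inter
      _ ≤ A * ∏ p ∈ W.primeFactors, p :=
          Nat.mul_le_mul_right _ (Nat.le_of_dvd hA (Nat.prod_primeFactors_dvd A))
  exact_mod_cast h

/-- **The solutions are sparse.** For all positive integers `A, B, C`, reals `F`, `M` and
`δ > 0` there is `K` such that for every `H ≥ 1` at most `K * H ^ (2 F / 3 + δ)` triples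
`(X, Y, Z)` of positive integers `≤ H` with product representations of small spread
(`s_W ^ 2 ≤ M b_W`) and `∑ (s_W + 1) / n_W ≤ F` satisfy `A X + B Y = C Z`. -/
theorem result (A B C : ℕ) (hA : 0 < A) (hB : 0 < B) (hC : 0 < C) (F M δ : ℝ) (hδ : 0 < δ) :
    ∃ K : ℝ, ∀ H : ℝ, 1 ≤ H → (solutions A B C F M H).Finite ∧
      ((solutions A B C F M H).ncard : ℝ) ≤ K * H ^ (2 * F / 3 + δ) := by
  classical
  obtain ⟨K, hK, hcount⟩ := Pool.Agent.H813R3.Abc.zero_sum_count 2 hδ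
  set D : ℝ := (A : ℝ) + B + C with hD
  have hA' : (1 : ℝ) ≤ A := by exact_mod_cast hA
  have hB' : (1 : ℝ) ≤ B := by exact_mod_cast hB
  have hC' : (1 : ℝ) ≤ C := by exact_mod_cast hC
  have hD1 : 1 ≤ D := by rw [hD]; linarith
  set G : ℝ := (A : ℝ) * B * C * Real.exp (6 * M) with hG
  have hG0 : 0 < G := by positivity
  refine ⟨K * G ^ ((2 : ℝ) / 3) * D ^ δ, fun H hH => ?_⟩
  have hH0 : 0 < H := by linarith
  refine Pool.Agent.H951R3.V.ncard_le_of_finset _ _ (by positivity) fun E hE => ?_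
  set φ : ℕ × ℕ × ℕ → (Fin 3 → ℤ) := fun t =>
    ![((A * t.1 : ℕ) : ℤ), ((B * t.2.1 : ℕ) : ℤ), -((C * t.2.2 : ℕ) : ℤ)] with hφ
  have hinj : Function.Injective φ := by
    intro t u h
    have h0 := congrFun h 0
    have h1 := congrFun h 1
    have h2 := congrFun h 2
    simp only [hφ, Matrix.cons_val_zero, Matrix.cons_val_one, Matrix.cons_val] at h0 h1 h2
    have e0 : t.1 = u.1 := Nat.eq_of_mul_eq_mul_left hA (by exact_mod_cast h0)
    have e1 : t.2.1 = u.2.1 := Nat.eq_of_mul_eq_mul_left hB (by exact_mod_cast h1)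
    have e2 : t.2.2 = u.2.2 := Nat.eq_of_mul_eq_mul_left hC (by exact_mod_cast (neg_injective h2))
    exact Prod.ext e0 (Prod.ext e1 e2)
  have hcard : (E.card : ℝ) = ((E.image φ).card : ℝ) := by
    rw [Finset.card_image_of_injective _ hinj]
  have hprod : ∀ t ∈ E, 0 < t.1 ∧ 0 < t.2.1 ∧ 0 < t.2.2 ∧
      (rho ∅ (t.1 : ℤ) : ℝ) * (rho ∅ (t.2.1 : ℤ) : ℝ) * (rho ∅ (t.2.2 : ℤ) : ℝ) ≤
        Real.exp (6 * M) * H ^ F := by
    intro t ht
    obtain ⟨-, hX, hY, hZ, nX, nY, nZ, bX, bY, bZ, sX, sY, sZ, rX, rY, rZ, mX, mY, mZ, hF⟩ := hE ht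
    obtain ⟨pX, nX0, qX⟩ := rho_le_of_rep _ _ _ _ M rX mX
    obtain ⟨pY, nY0, qY⟩ := rho_le_of_rep _ _ _ _ M rY mY
    obtain ⟨pZ, nZ0, qZ⟩ := rho_le_of_rep _ _ _ _ M rZ mZ
    refine ⟨pX, pY, pZ, ?_⟩
    have key : ∀ (W n s : ℕ), (W : ℝ) ≤ H →
        (rho ∅ (W : ℤ) : ℝ) ≤ Real.exp (2 * M) * (W : ℝ) ^ (((s : ℝ) + 1) / n) →
        (rho ∅ (W : ℤ) : ℝ) ≤ Real.exp (2 * M) * H ^ (((s : ℝ) + 1) / n) := by
      intro W n s hW hq
      exact hq.trans (mul_le_mul_of_nonneg_left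
        (Real.rpow_le_rpow (by positivity) hW (by positivity)) (Real.exp_pos _).le)
    have kX := key _ _ _ hX qX
    have kY := key _ _ _ hY qY
    have kZ := key _ _ _ hZ qZ
    calc (rho ∅ (t.1 : ℤ) : ℝ) * (rho ∅ (t.2.1 : ℤ) : ℝ) * (rho ∅ (t.2.2 : ℤ) : ℝ)
        ≤ (Real.exp (2 * M) * H ^ (((sX : ℝ) + 1) / nX)) *
            (Real.exp (2 * M) * H ^ (((sY : ℝ) + 1) / nY)) *
            (Real.exp (2 * M) * H ^ (((sZ : ℝ) + 1) / nZ)) := by gcongr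
      _ = Real.exp (6 * M) *
            H ^ (((sX : ℝ) + 1) / nX + ((sY : ℝ) + 1) / nY + ((sZ : ℝ) + 1) / nZ) := by
          rw [Real.rpow_add hH0, Real.rpow_add hH0,
            show (6 : ℝ) * M = 2 * M + 2 * M + 2 * M by ring, Real.exp_add, Real.exp_add]
          ring
      _ ≤ Real.exp (6 * M) * H ^ F :=
          mul_le_mul_of_nonneg_left (Real.rpow_le_rpow_of_exponent_le hH hF) (Real.exp_pos _).le
  rw [hcard]
  have hDH : 1 ≤ D * H := by nlinarith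
  have hT0 : 0 < G * H ^ F := by positivity
  refine (hcount (D * H) hDH (G * H ^ F) hT0 (E.image φ) ?_ ?_ ?_ ?_).trans (le_of_eq ?_)
  · intro z hz
    obtain ⟨t, ht, rfl⟩ := Finset.mem_image.1 hz
    have h := (hE ht).1
    have h' : ((A * t.1 : ℕ) : ℤ) + ((B * t.2.1 : ℕ) : ℤ) = ((C * t.2.2 : ℕ) : ℤ) := by
      exact_mod_cast h
    change ∑ i : Fin 3, φ t i = 0
    rw [Fin.sum_univ_three]
    change ((A * t.1 : ℕ) : ℤ) + ((B * t.2.1 : ℕ) : ℤ) + -((C * t.2.2 : ℕ) : ℤ) = 0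
    linarith
  · intro z hz i
    obtain ⟨t, ht, rfl⟩ := Finset.mem_image.1 hz
    obtain ⟨p1, p2, p3, -⟩ := hprod t ht
    have e1 : ((A * t.1 : ℕ) : ℤ) ≠ 0 := by exact_mod_cast (Nat.mul_pos hA p1).ne'
    have e2 : ((B * t.2.1 : ℕ) : ℤ) ≠ 0 := by exact_mod_cast (Nat.mul_pos hB p2).ne'
    have e3 : -((C * t.2.2 : ℕ) : ℤ) ≠ 0 := neg_ne_zero.2 (by exact_mod_cast (Nat.mul_pos hC p3).ne')
    fin_cases i
    · exact e1
    · exact e2
    · exact e3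
  · intro z hz i
    obtain ⟨t, ht, rfl⟩ := Finset.mem_image.1 hz
    obtain ⟨-, hX, hY, hZ, -⟩ := hE ht
    have e1 : |(((A * t.1 : ℕ) : ℤ) : ℝ)| ≤ D * H := by
      push_cast
      rw [abs_of_nonneg (by positivity)]
      exact mul_le_mul (by rw [hD]; linarith) hX (by positivity) (by linarith)
    have e2 : |(((B * t.2.1 : ℕ) : ℤ) : ℝ)| ≤ D * H := by
      push_cast
      rw [abs_of_nonneg (by positivity)]
      exact mul_le_mul (by rw [hD]; linarith) hY (by positivity) (by linarith)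
    have e3 : |((-((C * t.2.2 : ℕ) : ℤ) : ℤ) : ℝ)| ≤ D * H := by
      push_cast
      rw [abs_neg, abs_of_nonneg (by positivity)]
      exact mul_le_mul (by rw [hD]; linarith) hZ (by positivity) (by linarith)
    fin_cases i
    · exact e1
    · exact e2
    · exact e3
  · intro z hz
    obtain ⟨t, ht, rfl⟩ := Finset.mem_image.1 hz
    obtain ⟨p1, p2, p3, hp⟩ := hprod t ht
    have e1 := rho_mul_le A t.1 hA p1
    have e2 := rho_mul_le B t.2.1 hB p2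
    have e3 := rho_mul_le C t.2.2 hC p3
    have e3' : rho ∅ (-((C * t.2.2 : ℕ) : ℤ)) = rho ∅ ((C * t.2.2 : ℕ) : ℤ) := by
      unfold rho; rw [Int.natAbs_neg]
    have hfin : ∏ i, (rho ∅ (φ t i) : ℝ) = (rho ∅ ((A * t.1 : ℕ) : ℤ) : ℝ) *
        (rho ∅ ((B * t.2.1 : ℕ) : ℤ) : ℝ) * (rho ∅ ((C * t.2.2 : ℕ) : ℤ) : ℝ) := by
      rw [Fin.prod_univ_three, ← e3']
      rfl
    rw [hfin]
    calc (rho ∅ ((A * t.1 : ℕ) : ℤ) : ℝ) *
        (rho ∅ ((B * t.2.1 : ℕ) : ℤ) : ℝ) * (rho ∅ ((C * t.2.2 : ℕ) : ℤ) : ℝ)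
        ≤ (A * (rho ∅ (t.1 : ℤ) : ℝ)) * (B * (rho ∅ (t.2.1 : ℤ) : ℝ)) *
          (C * (rho ∅ (t.2.2 : ℤ) : ℝ)) := by gcongr
      _ = A * B * C * ((rho ∅ (t.1 : ℤ) : ℝ) * (rho ∅ (t.2.1 : ℤ) : ℝ) *
          (rho ∅ (t.2.2 : ℤ) : ℝ)) := by ring
      _ ≤ A * B * C * (Real.exp (6 * M) * H ^ F) :=
          mul_le_mul_of_nonneg_left hp (by positivity)
      _ = G * H ^ F := by rw [hG]; ring
  · have e : (1 - 1 / ((2 + 1 : ℕ) : ℝ)) = 2 / 3 := by norm_num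
    rw [e, Real.mul_rpow hG0.le (by positivity), Real.mul_rpow (by linarith) hH0.le,
      ← Real.rpow_mul hH0.le, Real.rpow_add hH0, show F * (2 / 3) = 2 * F / 3 by ring]
    ring

end Pool.Agent.Results.MP_4ffbf9_nt.SparseSolutions
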